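import Pool.Agent.Helper62K9.SD.Main

set_option autoImplicit false

namespace Pool.Agent.Helper62K9.SD

open Finset
open Pool.Agent.Helper62K9.DV (vc vc_le exists_cover)

open Classical in
/-- Two graphs with the same spectrum (characteristic polynomial of the adjacency matrix) and with
isomorphic bipartite double covers. -/
def Alike {V W : Type} [Fintype V] [Fintype W] (G : SimpleGraph V) (H : SimpleGraph W) : Prop :=
  (G.adjMatrix ℚ).charpoly = (H.adjMatrix ℚ).charpoly ∧
    Nonempty (G.bipartiteDoubleCover ≃g H.bipartiteDoubleCover)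

section General

variable {V : Type} [Fintype V]

/-- the bipartite double cover gives the ratio two -/
theorem double_bounds (G : SimpleGraph V) :
    vc G ≤ vc G.bipartiteDoubleCover ∧ vc G.bipartiteDoubleCover ≤ 2 * vc G := by
  classical
  constructor
  · obtain ⟨S, hS, hc⟩ := exists_cover G.bipartiteDoubleCover
    rw [← hS]
    refine (vc_le G (S.image (Sum.elim id id)) ?_).trans card_image_le
    intro u v huv
    have h : G.bipartiteDoubleCover.Adj (Sum.inl u) (Sum.inr v) := huv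
    rcases hc h with h' | h'
    · left
      rw [coe_image]
      exact ⟨_, h', rfl⟩
    · right
      rw [coe_image]
      exact ⟨_, h', rfl⟩
  · obtain ⟨S, hS, hc⟩ := exists_cover G
    rw [← hS]
    refine (vc_le _ (S.disjSum S) ?_).trans_eq (by rw [card_disjSum]; ring)
    rintro (u | u) (v | v) huv
    · exact absurd huv (by simp)
    · have h : G.Adj u v := huv
      rcases hc h with h' | h'
      · left
        simpa using h'
      · right
        simpa using h'
    · have h : G.Adj u v := huv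
      rcases hc h with h' | h'
      · left
        simpa using h'
      · right
        simpa using h'
    · exact absurd huv (by simp)

theorem ncard_lift (K F : SimpleGraph V) (v : V) (b : Bool) :
    ((lift K F).neighborSet (v, b)).ncard = (K.neighborSet v).ncard + (F.neighborSet v).ncard := by
  have h : (lift K F).neighborSet (v, b) =
      (fun u => (u, b)) '' K.neighborSet v ∪ (fun u => (u, !b)) '' F.neighborSet v := by
    ext ⟨u, c⟩
    simp only [SimpleGraph.mem_neighborSet, lift_adj, Set.mem_union, Set.mem_image, Prod.mk.injEq]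
    constructor
    · rintro (⟨h1, h2⟩ | ⟨h1, h2⟩)
      · exact Or.inl ⟨u, h1, rfl, h2⟩
      · refine Or.inr ⟨u, h1, rfl, ?_⟩
        revert h2
        cases b <;> cases c <;> simp
    · rintro (⟨u', h1, rfl, rfl⟩ | ⟨u', h1, rfl, rfl⟩)
      · exact Or.inl ⟨h1, rfl⟩
      · exact Or.inr ⟨h1, by simp⟩
  rw [h, Set.ncard_union_eq ?_ (Set.toFinite _) (Set.toFinite _), Set.ncard_image_of_injective,
    Set.ncard_image_of_injective]
  · intro x y hxy
    simpa using hxy
  · intro x y hxy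
    simpa using hxy
  · rw [Set.disjoint_left]
    rintro ⟨u, c⟩ ⟨u', -, h3⟩ ⟨u'', -, h4⟩
    simp only [Prod.mk.injEq] at h3 h4
    rw [← h3.2] at h4
    simp at h4

end General

section Special

variable (q : ℕ) [hq : Fact q.Prime]

theorem ncard_sum (v : VV q) :
    ((base q ⊔ ⊥).neighborSet v).ncard + ((polar q ⊔ ⊥).neighborSet v).ncard = q - 1 := by
  have hcard : ∀ s : ZMod q, (((univ : Finset (ZMod q)).erase s : Finset (ZMod q)) :
      Set (ZMod q)).ncard = q - 1 := fun s => by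
    rw [Set.ncard_coe_finset, card_erase_of_mem (mem_univ _), card_univ, ZMod.card]
  obtain ⟨x, s⟩ | s := v
  · have h1 : (base q ⊔ ⊥).neighborSet (Sum.inl (x, s)) = ∅ := by
      ext (⟨y, t⟩ | t) <;>
        simp only [SimpleGraph.mem_neighborSet, SimpleGraph.sup_adj, SimpleGraph.bot_adj,
          or_false, Set.mem_empty_iff_false, iff_false] <;> exact fun h => h
    have h2 : (polar q ⊔ ⊥).neighborSet (Sum.inl (x, s)) =
        (fun t => Sum.inl (s * t - x, t)) '' ((univ.erase s : Finset (ZMod q)) : Set (ZMod q)) := by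
      ext (⟨y, t⟩ | t)
      · simp only [SimpleGraph.mem_neighborSet, SimpleGraph.sup_adj, SimpleGraph.bot_adj,
          or_false, Set.mem_image, mem_coe, mem_erase, mem_univ, and_true, Sum.inl.injEq,
          Prod.mk.injEq]
        constructor
        · rintro ⟨h3, h4⟩
          exact ⟨t, h3.symm, by rw [← h4]; ring, rfl⟩
        · rintro ⟨t', h3, h4, rfl⟩
          exact ⟨h3.symm, by rw [← h4]; ring⟩
      · simp only [SimpleGraph.mem_neighborSet, SimpleGraph.sup_adj, SimpleGraph.bot_adj,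
          or_false, Set.mem_image, reduceCtorEq, and_false, exists_false, iff_false]
        exact fun h => h
    rw [h1, h2, Set.ncard_empty, zero_add, Set.ncard_image_of_injective, hcard]
    intro a b hab
    simp only [Sum.inl.injEq, Prod.mk.injEq] at hab
    exact hab.2
  · have h1 : (polar q ⊔ ⊥).neighborSet (Sum.inr s) = ∅ := by
      ext (⟨y, t⟩ | t) <;>
        simp only [SimpleGraph.mem_neighborSet, SimpleGraph.sup_adj, SimpleGraph.bot_adj,
          or_false, Set.mem_empty_iff_false, iff_false] <;> exact fun h => h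
    have h2 : (base q ⊔ ⊥).neighborSet (Sum.inr s) =
        (fun t => Sum.inr t) '' ((univ.erase s : Finset (ZMod q)) : Set (ZMod q)) := by
      ext (⟨y, t⟩ | t)
      · simp only [SimpleGraph.mem_neighborSet, SimpleGraph.sup_adj, SimpleGraph.bot_adj,
          or_false, Set.mem_image, reduceCtorEq, and_false, exists_false, iff_false]
        exact fun h => h
      · simp only [SimpleGraph.mem_neighborSet, SimpleGraph.sup_adj, SimpleGraph.bot_adj,
          or_false, Set.mem_image, mem_coe, mem_erase, mem_univ, and_true, Sum.inr.injEq,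
          exists_eq_right]
        exact ne_comm
    rw [h1, h2, Set.ncard_empty, add_zero, Set.ncard_image_of_injective _ Sum.inr_injective, hcard]

theorem vc_upper (X : SimpleGraph (VV q)) (hX : X = ⊥ ∨ X = cross q) :
    vc (lift (base q ⊔ X) (polar q ⊔ X)) ≤ q ^ 2 + 2 * q := by
  classical
  set S : Finset (VV q × Bool) :=
    (univ.image fun p : ZMod q × ZMod q => (Sum.inl p, true)) ∪
      (univ.image fun s : ZMod q × Bool => (Sum.inr s.1, s.2)) with hS
  have hcov : (lift (base q ⊔ X) (polar q ⊔ X)).IsVertexCover (S : Set (VV q × Bool)) := by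
    rintro ⟨u, a⟩ ⟨v, b⟩ huv
    rw [lift_adj] at huv
    simp only [SimpleGraph.sup_adj] at huv
    have hr : ∀ (s : ZMod q) (c : Bool), ((Sum.inr s, c) : VV q × Bool) ∈ (S : Set (VV q × Bool)) := by
      intro s c
      simp [hS]
    have hl : ∀ p : ZMod q × ZMod q, ((Sum.inl p, true) : VV q × Bool) ∈ (S : Set (VV q × Bool)) := by
      intro p
      simp [hS]
    obtain ⟨x, s⟩ | s := u
    · obtain ⟨y, t⟩ | t := v
      · cases a with
        | true => exact Or.inl (hl _)
        | false =>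
          cases b with
          | true => exact Or.inr (hl _)
          | false =>
            exfalso
            rcases hX with rfl | rfl <;> simp [base, polar, cross] at huv
      · exact Or.inr (hr _ _)
    · exact Or.inl (hr _ _)
  refine (vc_le _ S hcov).trans ?_
  refine (card_union_le _ _).trans ?_
  have h1 : (univ.image fun p : ZMod q × ZMod q => ((Sum.inl p, true) : VV q × Bool)).card ≤ q ^ 2 := by
    refine card_image_le.trans ?_
    rw [card_univ, Fintype.card_prod, ZMod.card, sq]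
  have h2 : (univ.image fun s : ZMod q × Bool => ((Sum.inr s.1, s.2) : VV q × Bool)).card ≤ 2 * q := by
    refine card_image_le.trans ?_
    rw [card_univ, Fintype.card_prod, ZMod.card, Fintype.card_bool, mul_comm]
  omega

theorem vc_lower (X : SimpleGraph (VV q)) :
    2 * (q : ℝ) ^ 2 - 2 * q * √(q : ℝ) - 2 * q ≤ vc (lift (polar q ⊔ X) (base q ⊔ X)) := by
  classical
  obtain ⟨C, hC, hcov⟩ := exists_cover (lift (polar q ⊔ X) (base q ⊔ X))
  rw [← hC]
  set J : Bool → Finset (ZMod q × ZMod q) := fun b =>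
    univ.filter fun p => ((Sum.inl p, b) : VV q × Bool) ∉ C with hJ
  have hJle : ∀ b, ((J b).card : ℝ) ≤ q + q * √(q : ℝ) := by
    intro b
    refine indep q (J b) ?_
    intro p hp p' hp' hne heq
    have h1 : ((Sum.inl p, b) : VV q × Bool) ∉ C := (mem_filter.1 hp).2
    have h2 : ((Sum.inl p', b) : VV q × Bool) ∉ C := (mem_filter.1 hp').2
    have hadj : (lift (polar q ⊔ X) (base q ⊔ X)).Adj (Sum.inl p, b) (Sum.inl p', b) := by
      rw [lift_adj]
      left
      refine ⟨?_, rfl⟩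
      rw [SimpleGraph.sup_adj]
      left
      exact ⟨hne, heq⟩
    rcases hcov hadj with h | h
    · exact h1 h
    · exact h2 h
  have hcompl : ∀ b, ((univ.filter fun p : ZMod q × ZMod q =>
      ((Sum.inl p, b) : VV q × Bool) ∈ C).card : ℝ) = q ^ 2 - (J b).card := by
    intro b
    have := card_filter_add_card_filter_not (s := (univ : Finset (ZMod q × ZMod q)))
      (fun p => ((Sum.inl p, b) : VV q × Bool) ∈ C)
    rw [card_univ, Fintype.card_prod, ZMod.card] at this
    have h2 : ((univ.filter fun p : ZMod q × ZMod q =>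
      ((Sum.inl p, b) : VV q × Bool) ∈ C).card : ℝ) + (J b).card = q * q := by
      exact_mod_cast this
    rw [sq]
    linarith
  have hsum : ((∑ b : Bool, (univ.filter fun p : ZMod q × ZMod q =>
      ((Sum.inl p, b) : VV q × Bool) ∈ C).card : ℕ) : ℝ) ≤ C.card := by
    have : ∑ b : Bool, (univ.filter fun p : ZMod q × ZMod q =>
      ((Sum.inl p, b) : VV q × Bool) ∈ C).card ≤ C.card := by
      rw [Fintype.sum_bool, ← card_image_of_injective (univ.filter fun p : ZMod q × ZMod q =>
        ((Sum.inl p, true) : VV q × Bool) ∈ C) (f := fun p => ((Sum.inl p, true) : VV q × Bool))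
        (fun a b h => by simpa using h),
        ← card_image_of_injective (univ.filter fun p : ZMod q × ZMod q =>
        ((Sum.inl p, false) : VV q × Bool) ∈ C) (f := fun p => ((Sum.inl p, false) : VV q × Bool))
        (fun a b h => by simpa using h), ← card_union_of_disjoint]
      · refine card_le_card ?_
        intro z hz
        rcases mem_union.1 hz with hz | hz
        · obtain ⟨p, hp, rfl⟩ := mem_image.1 hz
          exact (mem_filter.1 hp).2
        · obtain ⟨p, hp, rfl⟩ := mem_image.1 hz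
          exact (mem_filter.1 hp).2
      · rw [Finset.disjoint_left]
        rintro z hz hz'
        obtain ⟨p, -, rfl⟩ := mem_image.1 hz
        obtain ⟨p', -, h⟩ := mem_image.1 hz'
        simp at h
    exact_mod_cast this
  rw [Fintype.sum_bool] at hsum
  push_cast at hsum
  rw [hcompl, hcompl] at hsum
  have h1 := hJle true
  have h2 := hJle false
  nlinarith

theorem connected_of (G : SimpleGraph (VV q × Bool))
    (h1 : ∀ x s b c, G.Adj (Sum.inl (x, s), b) (Sum.inr s, c))
    (h2 : ∀ s t, s ≠ t → ∀ b, ∃ c, G.Adj (Sum.inr s, b) (Sum.inr t, c)) : G.Connected := by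
  have hsame : ∀ s b c, G.Reachable (Sum.inr s, b) (Sum.inr s, c) := fun s b c =>
    ((h1 0 s true b).symm.reachable).trans (h1 0 s true c).reachable
  have hroot : ∀ s b, G.Reachable (Sum.inr s, b) (Sum.inr 0, true) := by
    intro s b
    by_cases hs : s = 0
    · subst hs
      exact hsame _ _ _
    · obtain ⟨c, hc⟩ := h2 s 0 hs b
      exact hc.reachable.trans (hsame _ _ _)
  have hall : ∀ u, G.Reachable u (Sum.inr 0, true) := by
    rintro ⟨⟨x, s⟩ | s, b⟩
    · exact (h1 x s b true).reachable.trans (hroot _ _)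
    · exact hroot _ _
  have : Nonempty (VV q × Bool) := ⟨(Sum.inr 0, true)⟩
  exact ⟨fun u v => (hall u).trans (hall v).symm⟩

theorem alike (h2 : q ≠ 2) (X : SimpleGraph (VV q)) (hX : X = ⊥ ∨ X = cross q) :
    Alike (lift (base q ⊔ X) (polar q ⊔ X)) (lift (polar q ⊔ X) (base q ⊔ X)) :=
  ⟨@charpoly_eq q _ h2 X hX fun a b => Classical.propDecidable (a = b), ⟨doubleIso _ _⟩⟩

theorem card_vertices : Fintype.card (VV q × Bool) = 2 * q ^ 2 + 2 * q := by
  rw [Fintype.card_prod, Fintype.card_sum, Fintype.card_prod, ZMod.card, Fintype.card_bool]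
  ring

theorem regular_lift (K F : SimpleGraph (VV q))
    (h : (K = base q ⊔ ⊥ ∧ F = polar q ⊔ ⊥) ∨ (K = polar q ⊔ ⊥ ∧ F = base q ⊔ ⊥))
    (v : VV q × Bool) : ((lift K F).neighborSet v).ncard = q - 1 := by
  obtain ⟨v, b⟩ := v
  rw [ncard_lift]
  have h3 := ncard_sum q v
  rcases h with ⟨rfl, rfl⟩ | ⟨rfl, rfl⟩
  · exact h3
  · rw [add_comm]
    exact h3

theorem connected_lift (K F : SimpleGraph (VV q))
    (h : (K = base q ⊔ cross q ∧ F = polar q ⊔ cross q) ∨
      (K = polar q ⊔ cross q ∧ F = base q ⊔ cross q)) : (lift K F).Connected := by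
  have hc : ∀ x s, (cross q).Adj (Sum.inl (x, s)) (Sum.inr s) := fun x s => rfl
  have hb : ∀ s t, s ≠ t → (base q).Adj (Sum.inr s) (Sum.inr t) := fun s t h => h
  refine connected_of q _ ?_ ?_
  · intro x s b c
    rw [lift_adj]
    rcases h with ⟨rfl, rfl⟩ | ⟨rfl, rfl⟩ <;> simp only [SimpleGraph.sup_adj, hc, or_true, true_and]
      <;> exact eq_or_ne b c
  · intro s t hst b
    rcases h with ⟨rfl, rfl⟩ | ⟨rfl, rfl⟩
    · refine ⟨b, ?_⟩
      rw [lift_adj]
      left
      exact ⟨Or.inl (hb s t hst), rfl⟩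
    · refine ⟨!b, ?_⟩
      rw [lift_adj]
      right
      exact ⟨Or.inl (hb s t hst), by simp⟩

end Special

/-- the graphs -/
theorem graphs (q : ℕ) (hq : q.Prime) (h2 : q ≠ 2) :
    ∃ (V : Type) (_ : Fintype V), Fintype.card V = 2 * q ^ 2 + 2 * q ∧
      (∃ G₁ G₂ : SimpleGraph V, (∀ v, (G₁.neighborSet v).ncard = q - 1 ∧
          (G₂.neighborSet v).ncard = q - 1) ∧ Alike G₁ G₂ ∧ vc G₁ ≤ q ^ 2 + 2 * q ∧
        2 * (q : ℝ) ^ 2 - 2 * q * √(q : ℝ) - 2 * q ≤ vc G₂) ∧
      (∃ G₁ G₂ : SimpleGraph V, G₁.Connected ∧ G₂.Connected ∧ Alike G₁ G₂ ∧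
        vc G₁ ≤ q ^ 2 + 2 * q ∧ 2 * (q : ℝ) ^ 2 - 2 * q * √(q : ℝ) - 2 * q ≤ vc G₂) := by
  have : Fact q.Prime := ⟨hq⟩
  refine ⟨VV q × Bool, inferInstance, card_vertices q, ?_, ?_⟩
  · exact ⟨lift (base q ⊔ ⊥) (polar q ⊔ ⊥), lift (polar q ⊔ ⊥) (base q ⊔ ⊥),
      fun v => ⟨regular_lift q _ _ (Or.inl ⟨rfl, rfl⟩) v, regular_lift q _ _ (Or.inr ⟨rfl, rfl⟩) v⟩,
      alike q h2 ⊥ (Or.inl rfl), vc_upper q ⊥ (Or.inl rfl), vc_lower q ⊥⟩
  · exact ⟨lift (base q ⊔ cross q) (polar q ⊔ cross q), lift (polar q ⊔ cross q) (base q ⊔ cross q),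
      connected_lift q _ _ (Or.inl ⟨rfl, rfl⟩), connected_lift q _ _ (Or.inr ⟨rfl, rfl⟩),
      alike q h2 _ (Or.inr rfl), vc_upper q _ (Or.inr rfl), vc_lower q _⟩

/-- the numerical part -/
theorem exists_prime (c : ℝ) (_ : 0 ≤ c) (hc : c < 2) :
    ∃ q : ℕ, q.Prime ∧ q ≠ 2 ∧
      c * ((q ^ 2 + 2 * q : ℕ) : ℝ) < 2 * (q : ℝ) ^ 2 - 2 * q * √(q : ℝ) - 2 * q := by
  set ε : ℝ := 2 - c with hε
  have hε0 : 0 < ε := by linarith
  obtain ⟨N, hN⟩ := exists_nat_gt ((8 / ε) ^ 2)
  obtain ⟨q, hqN, hq⟩ := Nat.exists_infinite_primes (N + 3)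
  refine ⟨q, hq, by omega, ?_⟩
  have hqN' : (N : ℝ) ≤ q := by exact_mod_cast (by omega : N ≤ q)
  have h1 : 8 / ε < √(q : ℝ) := by
    rw [Real.lt_sqrt (by positivity)]
    linarith
  have h2 : 8 < ε * √(q : ℝ) := by
    rw [div_lt_iff₀ hε0] at h1
    linarith
  have hq1 : (1 : ℝ) ≤ q := by exact_mod_cast hq.one_lt.le
  have h3 : 1 ≤ √(q : ℝ) := by
    rw [Real.one_le_sqrt]
    exact hq1
  have h4 : √(q : ℝ) * √(q : ℝ) = q := Real.mul_self_sqrt (by linarith)
  have h5 : 6 + 2 * √(q : ℝ) < ε * q := by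
    have : 8 * √(q : ℝ) < ε * √(q : ℝ) * √(q : ℝ) := mul_lt_mul_of_pos_right h2 (by linarith)
    rw [mul_assoc, h4] at this
    linarith
  have h6 : (6 + 2 * √(q : ℝ)) * q < ε * q * q := mul_lt_mul_of_pos_right h5 (by linarith)
  push_cast
  have h7 : c = 2 - ε := by rw [hε]; ring
  rw [h7]
  nlinarith

/-- no function of the spectrum and of the double cover has a ratio below two -/
theorem no_ratio (c : ℝ) (hc : c < 2) (Φ : ∀ (V : Type) [Fintype V], SimpleGraph V → ℝ)
    (hΦ : ∀ (V : Type) [Fintype V] (G H : SimpleGraph V), Alike G H → Φ V G = Φ V H) :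
    (∃ (V : Type) (_ : Fintype V) (G : SimpleGraph V) (d : ℕ), (∀ v, (G.neighborSet v).ncard = d) ∧
      ¬ ((vc G : ℝ) ≤ Φ V G ∧ Φ V G ≤ c * vc G)) ∧
    (∃ (V : Type) (_ : Fintype V) (G : SimpleGraph V), G.Connected ∧
      ¬ ((vc G : ℝ) ≤ Φ V G ∧ Φ V G ≤ c * vc G)) := by
  obtain ⟨q, hq, h2, hlt⟩ := exists_prime (max c 0) (le_max_right _ _) (max_lt hc (by norm_num))
  obtain ⟨V, _, -, ⟨G₁, G₂, hreg, hal, hu, hl⟩, ⟨G₁', G₂', hc1, hc2, hal', hu', hl'⟩⟩ :=
    graphs q hq h2
  have key : ∀ G₁ G₂ : SimpleGraph V, Alike G₁ G₂ → vc G₁ ≤ q ^ 2 + 2 * q →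
      2 * (q : ℝ) ^ 2 - 2 * q * √(q : ℝ) - 2 * q ≤ vc G₂ →
      ¬ ((vc G₁ : ℝ) ≤ Φ V G₁ ∧ Φ V G₁ ≤ c * vc G₁) ∨
      ¬ ((vc G₂ : ℝ) ≤ Φ V G₂ ∧ Φ V G₂ ≤ c * vc G₂) := by
    intro G₁ G₂ hal hu hl
    by_contra hcon
    push Not at hcon
    obtain ⟨⟨-, h3⟩, ⟨h4, -⟩⟩ := hcon
    rw [hΦ V G₁ G₂ hal] at h3
    have h5 : c * vc G₁ ≤ max c 0 * ((q ^ 2 + 2 * q : ℕ) : ℝ) :=
      (mul_le_mul_of_nonneg_right (le_max_left c 0) (Nat.cast_nonneg _)).trans
        (mul_le_mul_of_nonneg_left (by exact_mod_cast hu) (le_max_right _ _))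
    linarith
  constructor
  · rcases key G₁ G₂ hal hu hl with h | h
    · exact ⟨V, _, G₁, q - 1, fun v => (hreg v).1, h⟩
    · exact ⟨V, _, G₂, q - 1, fun v => (hreg v).2, h⟩
  · rcases key G₁' G₂' hal' hu' hl' with h | h
    · exact ⟨V, _, G₁', hc1, h⟩
    · exact ⟨V, _, G₂', hc2, h⟩

end Pool.Agent.Helper62K9.SD
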