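import Mathlib

set_option autoImplicit false

namespace Pool.Agent.Helper62K9.SD

open Matrix

variable {V : Type}

/-- The double cover in which the edges of `K` keep the sheet and the edges of `F` change it. -/
def lift (K F : SimpleGraph V) : SimpleGraph (V × Bool) where
  Adj u v := (K.Adj u.1 v.1 ∧ u.2 = v.2) ∨ (F.Adj u.1 v.1 ∧ u.2 ≠ v.2)
  symm := ⟨by
    rintro u v (⟨h1, h2⟩ | ⟨h1, h2⟩)
    · exact Or.inl ⟨h1.symm, h2.symm⟩
    · exact Or.inr ⟨h1.symm, h2.symm⟩⟩
  loopless := ⟨by
    rintro u (⟨h1, -⟩ | ⟨h1, -⟩)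
    · exact K.irrefl h1
    · exact F.irrefl h1⟩

theorem lift_adj (K F : SimpleGraph V) (u v : V × Bool) :
    (lift K F).Adj u v ↔ (K.Adj u.1 v.1 ∧ u.2 = v.2) ∨ (F.Adj u.1 v.1 ∧ u.2 ≠ v.2) := Iff.rfl

/-- The bipartite double covers of the two lifts are isomorphic. -/
def doubleIso (K F : SimpleGraph V) :
    (lift K F).bipartiteDoubleCover ≃g (lift F K).bipartiteDoubleCover where
  toEquiv := Equiv.sumCongr (Equiv.refl _) (Equiv.prodCongr (Equiv.refl _) Equiv.boolNot)
  map_rel_iff' := by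
    rintro (⟨u, a⟩ | ⟨u, a⟩) (⟨v, b⟩ | ⟨v, b⟩)
    · simp
    · simp only [Equiv.sumCongr_apply, Sum.map_inl, Sum.map_inr, Equiv.refl_apply,
        Equiv.prodCongr_apply, Prod.map_apply, Equiv.boolNot_apply,
        SimpleGraph.bipartiteDoubleCover, lift_adj]
      cases a <;> cases b <;> simp
    · simp only [Equiv.sumCongr_apply, Sum.map_inl, Sum.map_inr, Equiv.refl_apply,
        Equiv.prodCongr_apply, Prod.map_apply, Equiv.boolNot_apply,
        SimpleGraph.bipartiteDoubleCover, lift_adj]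
      cases a <;> cases b <;> simp
    · simp

/-- block matrices on two sheets -/
def blk (a b : Matrix V V ℚ) : Matrix (V × Bool) (V × Bool) ℚ :=
  fun u v => if u.2 = v.2 then a u.1 v.1 else b u.1 v.1

theorem blk_mul [Fintype V] (a b c d : Matrix V V ℚ) :
    blk a b * blk c d = blk (a * c + b * d) (a * d + b * c) := by
  ext ⟨u, i⟩ ⟨v, j⟩
  rw [Matrix.mul_apply, Fintype.sum_prod_type]
  simp only [Fintype.sum_bool, blk]
  rw [Finset.sum_add_distrib]
  cases i <;> cases j <;> simp [Matrix.mul_apply, Matrix.add_apply, add_comm]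

theorem blk_one [DecidableEq V] [DecidableEq (V × Bool)] : blk (1 : Matrix V V ℚ) 0 = 1 := by
  ext ⟨u, i⟩ ⟨v, j⟩
  by_cases h1 : u = v <;> by_cases h2 : i = j <;> simp [blk, Matrix.one_apply, h1, h2]

theorem adj_lift [DecidableEq V] (K F : SimpleGraph V) [DecidableRel K.Adj] [DecidableRel F.Adj]
    [DecidableRel (lift K F).Adj] :
    (lift K F).adjMatrix ℚ = blk (K.adjMatrix ℚ) (F.adjMatrix ℚ) := by
  ext ⟨u, i⟩ ⟨v, j⟩
  simp only [SimpleGraph.adjMatrix_apply, lift_adj, blk]
  by_cases h2 : i = j <;> simp [h2]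

/-- Two lifts are cospectral if the signed adjacency matrix is similar to its negative. -/
theorem charpoly_lift [Fintype V] [DecidableEq V] [DecidableEq (V × Bool)] (K F : SimpleGraph V) [DecidableRel K.Adj]
    [DecidableRel F.Adj] [DecidableRel (lift K F).Adj] [DecidableRel (lift F K).Adj]
    (R S : Matrix V V ℚ) (hRS : R * S = 1)
    (h : R * (K.adjMatrix ℚ - F.adjMatrix ℚ) = (F.adjMatrix ℚ - K.adjMatrix ℚ) * R) :
    ((lift K F).adjMatrix ℚ).charpoly = ((lift F K).adjMatrix ℚ).charpoly := by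
  have hSR : S * R = 1 := mul_eq_one_comm.1 hRS
  set a := K.adjMatrix ℚ with ha
  set b := F.adjMatrix ℚ with hb
  set T : Matrix V V ℚ → Matrix (V × Bool) (V × Bool) ℚ := fun R =>
    blk ((1 / 2 : ℚ) • (1 + R)) ((1 / 2 : ℚ) • (1 - R)) with hT
  have hmul : ∀ A B : Matrix V V ℚ, A * B = 1 → T A * T B = 1 := by
    intro A B hAB
    rw [hT]
    simp only
    rw [blk_mul, ← blk_one]
    congr 1
    · simp only [Matrix.smul_mul, Matrix.mul_smul, Matrix.mul_add, Matrix.add_mul, Matrix.mul_sub,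
        Matrix.sub_mul, Matrix.one_mul, Matrix.mul_one, hAB]
      module
    · simp only [Matrix.smul_mul, Matrix.mul_smul, Matrix.mul_add, Matrix.add_mul, Matrix.mul_sub,
        Matrix.sub_mul, Matrix.one_mul, Matrix.mul_one, hAB]
      module
  have hTR : T R * T S = 1 := hmul R S hRS
  have hTS : T S * T R = 1 := hmul S R hSR
  have hcomm : T R * blk a b = blk b a * T R := by
    rw [hT]
    simp only
    rw [blk_mul, blk_mul]
    have h' : R * a - R * b = b * R - a * R := by
      rw [← Matrix.mul_sub, ← Matrix.sub_mul]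
      exact h
    congr 1
    · simp only [Matrix.smul_mul, Matrix.mul_smul, Matrix.mul_add, Matrix.add_mul, Matrix.mul_sub,
        Matrix.sub_mul, Matrix.one_mul, Matrix.mul_one]
      have e : R * a = b * R - a * R + R * b := by rw [← h']; abel
      rw [e]
      module
    · simp only [Matrix.smul_mul, Matrix.mul_smul, Matrix.mul_add, Matrix.add_mul, Matrix.mul_sub,
        Matrix.sub_mul, Matrix.one_mul, Matrix.mul_one]
      have e : R * a = b * R - a * R + R * b := by rw [← h']; abel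
      rw [e]
      module
  let M : (Matrix (V × Bool) (V × Bool) ℚ)ˣ := ⟨T R, T S, hTR, hTS⟩
  rw [adj_lift K F, adj_lift F K, ← ha, ← hb, ← Matrix.charpoly_units_conj M (blk a b)]
  congr 1
  have hinv : (M : Matrix (V × Bool) (V × Bool) ℚ)⁻¹ = T S := Matrix.inv_eq_right_inv hTR
  rw [hinv]
  change T R * blk a b * T S = blk b a
  rw [hcomm, Matrix.mul_assoc, hTR, Matrix.mul_one]

end Pool.Agent.Helper62K9.SD
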