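import Pool.Agent.Helper62K9.SD.Polar
import Pool.Agent.Helper62K9.DV.Main

set_option autoImplicit false

namespace Pool.Agent.Helper62K9.SD

open Matrix Finset
open Pool.Agent.Helper62K9.DV (vc vc_le exists_cover)

section Spectrum

variable (q : ℕ) [hq : Fact q.Prime]

open Classical in
theorem charpoly_eq (h2 : q ≠ 2) (X : SimpleGraph (VV q)) (hX : X = ⊥ ∨ X = cross q)
    [DecidableEq (VV q × Bool)] :
    ((lift (base q ⊔ X) (polar q ⊔ X)).adjMatrix ℚ).charpoly =
      ((lift (polar q ⊔ X) (base q ⊔ X)).adjMatrix ℚ).charpoly := by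
  set e := LinearEquiv.ofInjectiveEndo (rho q) (rho_injective q h2) with he
  have hcoe : ∀ f, e f = rho q f := fun f => rfl
  set R := LinearMap.toMatrix' (rho q) with hR
  set S := LinearMap.toMatrix' (e.symm : (VV q → ℚ) →ₗ[ℚ] (VV q → ℚ)) with hS
  have hRS : R * S = 1 := by
    rw [hR, hS, ← LinearMap.toMatrix'_mul]
    have : rho q * (e.symm : (VV q → ℚ) →ₗ[ℚ] (VV q → ℚ)) = 1 := by
      refine LinearMap.ext fun f => ?_
      rw [Module.End.mul_apply, LinearEquiv.coe_coe, ← hcoe, LinearEquiv.apply_symm_apply,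
        Module.End.one_apply]
    rw [this, LinearMap.toMatrix'_one]
  refine charpoly_lift _ _ R S hRS ?_
  set A := (base q ⊔ X).adjMatrix ℚ - (polar q ⊔ X).adjMatrix ℚ with hA
  have hA' : (polar q ⊔ X).adjMatrix ℚ - (base q ⊔ X).adjMatrix ℚ = -A := by
    rw [hA, neg_sub]
  rw [hA']
  have hRv : ∀ f, R *ᵥ f = rho q f := fun f => by
    rw [hR, LinearMap.toMatrix'_mulVec]
  have hAv : ∀ f, A *ᵥ f = delta q f := fun f => diff_mulVec q X hX f
  apply Matrix.toLin'.injective
  refine LinearMap.ext fun f => ?_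
  rw [Matrix.toLin'_apply, Matrix.toLin'_apply, ← Matrix.mulVec_mulVec, ← Matrix.mulVec_mulVec,
    hAv, hRv, hRv, Matrix.neg_mulVec, hAv, rho_delta]

end Spectrum

section Independent

variable (q : ℕ) [hq : Fact q.Prime]

theorem pairs_count (p p' : ZMod q × ZMod q) :
    (univ.filter fun w : ZMod q × ZMod q => p.1 + w.1 = p.2 * w.2 ∧ p'.1 + w.1 = p'.2 * w.2).card
      ≤ 1 + if p = p' then q else 0 := by
  by_cases h : p = p'
  · subst h
    simp only [and_self, if_true]
    refine le_trans ?_ (Nat.le_add_left q 1)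
    have hinj : Set.InjOn (fun w : ZMod q × ZMod q => w.2)
        ((univ.filter fun w : ZMod q × ZMod q => p.1 + w.1 = p.2 * w.2) :
          Finset (ZMod q × ZMod q)) := by
      intro w hw w' hw' hww
      simp only [coe_filter, mem_univ, true_and, Set.mem_ofPred_eq] at hw hw'
      refine Prod.ext ?_ hww
      have : p.1 + w.1 = p.1 + w'.1 := by
        rw [hw, hw']
        simp only at hww
        rw [hww]
      exact add_left_cancel this
    rw [← card_image_of_injOn hinj]
    exact (card_le_univ _).trans_eq (ZMod.card q)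
  · simp only [h, if_false, add_zero]
    rw [card_le_one]
    intro w hw w' hw'
    simp only [mem_filter, mem_univ, true_and] at hw hw'
    have h1 : (p.2 - p'.2) * w.2 = p.1 - p'.1 := by
      rw [sub_mul, ← hw.1, ← hw.2]
      ring
    have h2 : (p.2 - p'.2) * w'.2 = p.1 - p'.1 := by
      rw [sub_mul, ← hw'.1, ← hw'.2]
      ring
    have hs : p.2 - p'.2 ≠ 0 := by
      intro h0
      rw [h0, zero_mul] at h1
      exact h (Prod.ext (sub_eq_zero.1 h1.symm) (sub_eq_zero.1 h0))
    have h3 : w.2 = w'.2 := mul_left_cancel₀ hs (h1.trans h2.symm)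
    refine Prod.ext ?_ h3
    have : p.1 + w.1 = p.1 + w'.1 := by
      rw [hw.1, hw'.1, h3]
    exact add_left_cancel this

theorem point_count (p : ZMod q × ZMod q) :
    (univ.filter fun w : ZMod q × ZMod q => p.1 + w.1 = p.2 * w.2).card = q := by
  have : (univ.filter fun w : ZMod q × ZMod q => p.1 + w.1 = p.2 * w.2) =
      univ.image fun t : ZMod q => (p.2 * t - p.1, t) := by
    ext w
    simp only [mem_filter, mem_univ, true_and, mem_image]
    constructor
    · intro h
      exact ⟨w.2, Prod.ext (by rw [← h]; ring) rfl⟩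
    · rintro ⟨t, rfl⟩
      simp
  rw [this, card_image_of_injective _ fun a b h => (Prod.ext_iff.1 h).2, card_univ, ZMod.card]

/-- The independence number of the polarity graph. -/
theorem indep (I : Finset (ZMod q × ZMod q))
    (hI : ∀ p ∈ I, ∀ p' ∈ I, p.2 ≠ p'.2 → p.1 + p'.1 ≠ p.2 * p'.2) :
    (I.card : ℝ) ≤ q + q * √(q : ℝ) := by
  have hq0 : (0 : ℝ) < q := by exact_mod_cast hq.out.pos
  by_cases hle : (I.card : ℝ) ≤ q
  · have : 0 ≤ q * √(q : ℝ) := by positivity
    linarith
  push Not at hle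
  set N : ZMod q × ZMod q → ℝ := fun w =>
    ∑ p ∈ I, if p.1 + w.1 = p.2 * w.2 then (1 : ℝ) else 0 with hN
  set m : ℝ := I.card / q with hm
  have hm1 : 1 < m := by
    rw [hm, lt_div_iff₀ hq0]
    linarith
  have hS1 : ∑ w, N w = I.card * q := by
    simp only [hN]
    rw [sum_comm]
    have : ∀ p ∈ I, ∑ w : ZMod q × ZMod q, (if p.1 + w.1 = p.2 * w.2 then (1 : ℝ) else 0) = q := by
      intro p _
      rw [← sum_filter, sum_const, nsmul_eq_mul, mul_one, point_count]
    rw [sum_congr rfl this, sum_const, nsmul_eq_mul]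
  have hS2 : ∑ w, N w ^ 2 ≤ I.card ^ 2 + I.card * q := by
    have h1 : ∀ w, N w ^ 2 = ∑ p ∈ I, ∑ p' ∈ I,
        if (p.1 + w.1 = p.2 * w.2 ∧ p'.1 + w.1 = p'.2 * w.2) then (1 : ℝ) else 0 := by
      intro w
      rw [sq, hN]
      simp only
      rw [sum_mul_sum]
      refine sum_congr rfl fun p _ => sum_congr rfl fun p' _ => ?_
      split_ifs <;> simp_all
    simp only [h1]
    rw [sum_comm]
    have h2 : ∀ p ∈ I, ∑ w : ZMod q × ZMod q, ∑ p' ∈ I,
        (if (p.1 + w.1 = p.2 * w.2 ∧ p'.1 + w.1 = p'.2 * w.2) then (1 : ℝ) else 0) ≤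
        I.card + q := by
      intro p hp
      rw [sum_comm]
      have h3 : ∀ p' ∈ I, ∑ w : ZMod q × ZMod q,
          (if (p.1 + w.1 = p.2 * w.2 ∧ p'.1 + w.1 = p'.2 * w.2) then (1 : ℝ) else 0) ≤
          1 + if p = p' then (q : ℝ) else 0 := by
        intro p' _
        rw [← sum_filter, sum_const, nsmul_eq_mul, mul_one]
        have := pairs_count q p p'
        have h4 : ((1 + if p = p' then q else 0 : ℕ) : ℝ) = 1 + if p = p' then (q : ℝ) else 0 := by
          push_cast
          rfl
        rw [← h4]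
        exact_mod_cast this
      refine (sum_le_sum h3).trans ?_
      rw [sum_add_distrib, sum_const, nsmul_eq_mul, mul_one, sum_ite_eq]
      simp [hp]
    refine (sum_le_sum h2).trans ?_
    rw [sum_const, nsmul_eq_mul]
    nlinarith
  have hN1 : ∀ w ∈ I, N w ≤ 1 := by
    intro w hw
    have h1 : ∀ p ∈ I, (if p.1 + w.1 = p.2 * w.2 then (1 : ℝ) else 0) ≤
        if p = (w.2 * w.2 - w.1, w.2) then 1 else 0 := by
      intro p hp
      split_ifs with h1 h2 h2
      · exact le_rfl
      · exfalso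
        by_cases h3 : p.2 = w.2
        · rw [h3] at h1
          exact h2 (Prod.ext (eq_sub_of_add_eq h1) h3)
        · exact hI p hp w hw h3 h1
      · norm_num
      · exact le_rfl
    rw [hN]
    refine (sum_le_sum h1).trans ?_
    rw [sum_ite_eq']
    split_ifs <;> norm_num
  have hvar : ∑ w, (N w - m) ^ 2 ≤ I.card * q := by
    have h1 : ∀ w, (N w - m) ^ 2 = N w ^ 2 - 2 * m * N w + m ^ 2 := fun w => by ring
    simp only [h1]
    rw [sum_add_distrib, sum_sub_distrib, ← mul_sum, hS1, sum_const, card_univ, Fintype.card_prod,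
      ZMod.card, nsmul_eq_mul]
    have h2 : m * q = I.card := by
      rw [hm]
      field_simp
    have h3 : 2 * m * (I.card * q) = 2 * I.card ^ 2 := by
      calc 2 * m * (I.card * q) = 2 * I.card * (m * q) := by ring
        _ = _ := by rw [h2]; ring
    have h4 : ((q * q : ℕ) : ℝ) * m ^ 2 = I.card ^ 2 := by
      push_cast
      calc (q : ℝ) * q * m ^ 2 = (m * q) ^ 2 := by ring
        _ = _ := by rw [h2]
    rw [h3, h4]
    linarith
  have hlow : (I.card : ℝ) * (m - 1) ^ 2 ≤ I.card * q := by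
    refine le_trans ?_ hvar
    calc (I.card : ℝ) * (m - 1) ^ 2 = ∑ _w ∈ I, (m - 1) ^ 2 := by
          rw [sum_const, nsmul_eq_mul]
      _ ≤ ∑ w ∈ I, (N w - m) ^ 2 := by
          refine sum_le_sum fun w hw => ?_
          have := hN1 w hw
          nlinarith
      _ ≤ ∑ w, (N w - m) ^ 2 :=
          sum_le_sum_of_subset_of_nonneg (subset_univ _) fun w _ _ => sq_nonneg _
  have hI0 : (0 : ℝ) < I.card := by linarith
  have h5 : (m - 1) ^ 2 ≤ q := le_of_mul_le_mul_left hlow hI0
  have h6 : m - 1 ≤ √(q : ℝ) := Real.le_sqrt_of_sq_le h5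
  have h7 : m * q = I.card := by
    rw [hm]
    field_simp
  calc (I.card : ℝ) = m * q := h7.symm
    _ ≤ (1 + √(q : ℝ)) * q := mul_le_mul_of_nonneg_right (by linarith) hq0.le
    _ = _ := by ring

end Independent

end Pool.Agent.Helper62K9.SD
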