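import Pool.Agent.Helper62K9.SD.Lift

set_option autoImplicit false

namespace Pool.Agent.Helper62K9.SD

open Matrix

/-- the vertices: the plane and its second coordinates -/
abbrev VV (q : ℕ) : Type := (ZMod q × ZMod q) ⊕ ZMod q

/-- the complete graph on the second part -/
def base (q : ℕ) : SimpleGraph (VV q) where
  Adj
  | .inr s, .inr t => s ≠ t
  | _, _ => False
  symm := ⟨by rintro (⟨x, s⟩ | s) (⟨y, t⟩ | t) <;> simp [eq_comm]⟩
  loopless := ⟨by rintro (⟨x, s⟩ | s) <;> simp⟩

/-- the polarity graph on the plane -/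
def polar (q : ℕ) : SimpleGraph (VV q) where
  Adj
  | .inl (x, s), .inl (y, t) => s ≠ t ∧ x + y = s * t
  | _, _ => False
  symm := ⟨by
    rintro (⟨x, s⟩ | s) (⟨y, t⟩ | t) <;> simp only [imp_self]
    rintro ⟨h1, h2⟩
    exact ⟨h1.symm, by rw [add_comm, h2, mul_comm]⟩⟩
  loopless := ⟨by rintro (⟨x, s⟩ | s) <;> simp⟩

/-- a point of the plane is joined to its second coordinate -/
def cross (q : ℕ) : SimpleGraph (VV q) where
  Adj
  | .inl (_, s), .inr t => s = t
  | .inr s, .inl (_, t) => s = t
  | _, _ => False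
  symm := ⟨by rintro (⟨x, s⟩ | s) (⟨y, t⟩ | t) <;> simp [eq_comm]⟩
  loopless := ⟨by rintro (⟨x, s⟩ | s) <;> simp⟩

variable (q : ℕ) [hq : Fact q.Prime]

/-- the intertwiner -/
def rho : (VV q → ℚ) →ₗ[ℚ] (VV q → ℚ) where
  toFun f
    | .inl (x, s) => f (.inl (x - 1, s)) - f (.inl (x + 1, s)) + f (.inr s)
    | .inr s => ∑ x, f (.inl (x, s))
  map_add' f g := by
    ext (⟨x, s⟩ | s)
    · simp only [Pi.add_apply]
      ring
    · simp only [Pi.add_apply, Finset.sum_add_distrib]
  map_smul' c f := by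
    ext (⟨x, s⟩ | s)
    · simp only [Pi.smul_apply, smul_eq_mul, RingHom.id_apply]
      ring
    · simp only [Pi.smul_apply, smul_eq_mul, RingHom.id_apply, Finset.mul_sum]

/-- the signed adjacency operator -/
def delta : (VV q → ℚ) →ₗ[ℚ] (VV q → ℚ) where
  toFun f
    | .inl (x, s) => - ∑ t, if s ≠ t then f (.inl (s * t - x, t)) else 0
    | .inr s => ∑ t, if s ≠ t then f (.inr t) else 0
  map_add' f g := by
    ext (⟨x, s⟩ | s)
    · simp only [Pi.add_apply]
      rw [← neg_add, ← Finset.sum_add_distrib]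
      congr 1
      refine Finset.sum_congr rfl fun t _ => ?_
      split_ifs <;> simp
    · simp only [Pi.add_apply]
      rw [← Finset.sum_add_distrib]
      refine Finset.sum_congr rfl fun t _ => ?_
      split_ifs <;> simp
  map_smul' c f := by
    ext (⟨x, s⟩ | s)
    · simp only [Pi.smul_apply, smul_eq_mul, RingHom.id_apply, mul_neg, Finset.mul_sum, mul_ite,
        mul_zero]
    · simp only [Pi.smul_apply, smul_eq_mul, RingHom.id_apply, Finset.mul_sum, mul_ite,
        mul_zero]

theorem rho_inl (f : VV q → ℚ) (x s : ZMod q) :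
    rho q f (.inl (x, s)) = f (.inl (x - 1, s)) - f (.inl (x + 1, s)) + f (.inr s) := rfl

theorem rho_inr (f : VV q → ℚ) (s : ZMod q) : rho q f (.inr s) = ∑ x, f (.inl (x, s)) := rfl

theorem delta_inl (f : VV q → ℚ) (x s : ZMod q) :
    delta q f (.inl (x, s)) = - ∑ t, if s ≠ t then f (.inl (s * t - x, t)) else 0 := rfl

theorem delta_inr (f : VV q → ℚ) (s : ZMod q) :
    delta q f (.inr s) = ∑ t, if s ≠ t then f (.inr t) else 0 := rfl

theorem rho_delta (f : VV q → ℚ) : rho q (delta q f) = - delta q (rho q f) := by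
  funext v
  obtain ⟨x, s⟩ | s := v
  · rw [Pi.neg_apply, rho_inl, delta_inl, delta_inl, delta_inl, delta_inr, neg_neg, sub_neg_eq_add,
      ← Finset.sum_neg_distrib, ← Finset.sum_add_distrib, ← Finset.sum_add_distrib]
    refine Finset.sum_congr rfl fun t _ => ?_
    by_cases h : s ≠ t
    · simp only [h, ne_eq, not_false_eq_true, if_true]
      rw [rho_inl]
      have e1 : s * t - (x - 1) = s * t - x + 1 := by ring
      have e2 : s * t - (x + 1) = s * t - x - 1 := by ring
      rw [e1, e2]
      ring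
    · simp [h]
  · rw [Pi.neg_apply, rho_inr, delta_inr]
    simp only [delta_inl]
    rw [Finset.sum_neg_distrib, Finset.sum_comm]
    congr 1
    refine Finset.sum_congr rfl fun t _ => ?_
    by_cases h : s ≠ t
    · simp only [h, ne_eq, not_false_eq_true, if_true]
      rw [rho_inr]
      exact Fintype.sum_equiv (Equiv.subLeft (s * t)) _ _ fun x => rfl
    · simp [h]

theorem rho_injective (h2 : q ≠ 2) : Function.Injective (rho q) := by
  rw [injective_iff_map_eq_zero]
  intro f hf
  have hq0 : (q : ℚ) ≠ 0 := by exact_mod_cast hq.out.ne_zero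
  have h1 : ∀ x s, f (.inl (x - 1, s)) - f (.inl (x + 1, s)) + f (.inr s) = 0 := fun x s => by
    rw [← rho_inl, hf]
    rfl
  have h3 : ∀ s, ∑ x, f (.inl (x, s)) = 0 := fun s => by
    rw [← rho_inr, hf]
    rfl
  have h4 : ∀ s, f (.inr s) = 0 := by
    intro s
    have h5 : ∑ x : ZMod q, (f (.inl (x - 1, s)) - f (.inl (x + 1, s)) + f (.inr s)) = 0 :=
      Finset.sum_eq_zero fun x _ => h1 x s
    rw [Finset.sum_add_distrib, Finset.sum_sub_distrib, Finset.sum_const, Finset.card_univ,
      ZMod.card, nsmul_eq_mul] at h5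
    have e1 : ∑ x : ZMod q, f (.inl (x - 1, s)) = 0 :=
      (Fintype.sum_equiv (Equiv.subRight (1 : ZMod q)) _ (fun x => f (.inl (x, s)))
        fun x => rfl).trans (h3 s)
    have e2 : ∑ x : ZMod q, f (.inl (x + 1, s)) = 0 :=
      (Fintype.sum_equiv (Equiv.addRight (1 : ZMod q)) _ (fun x => f (.inl (x, s)))
        fun x => rfl).trans (h3 s)
    rw [e1, e2, sub_zero, zero_add] at h5
    exact (mul_eq_zero.1 h5).resolve_left hq0
  have h5 : ∀ x s, f (.inl (x + 2, s)) = f (.inl (x, s)) := by
    intro x s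
    have := h1 (x + 1) s
    rw [h4, add_zero, sub_eq_zero] at this
    have e1 : x + 1 - 1 = x := by ring
    have e2 : x + 1 + 1 = x + 2 := by ring
    rw [e1, e2] at this
    exact this.symm
  have h6 : ∀ (k : ℕ) s, f (.inl ((k : ZMod q) * 2, s)) = f (.inl (0, s)) := by
    intro k s
    induction k with
    | zero => simp
    | succ k ih =>
      have e : ((k + 1 : ℕ) : ZMod q) * 2 = (k : ZMod q) * 2 + 2 := by
        push_cast
        ring
      rw [e, h5, ih]
  have h20 : (2 : ZMod q) ≠ 0 := by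
    intro h
    have : (q : ℕ) ∣ 2 := (ZMod.natCast_eq_zero_iff 2 q).1 (by exact_mod_cast h)
    exact h2 ((Nat.prime_dvd_prime_iff_eq hq.out Nat.prime_two).1 this)
  have h7 : ∀ x s, f (.inl (x, s)) = f (.inl (0, s)) := by
    intro x s
    have := h6 (x / 2).val s
    rwa [ZMod.natCast_zmod_val, div_mul_cancel₀ _ h20] at this
  funext v
  obtain ⟨x, s⟩ | s := v
  · have h8 := h3 s
    simp only [h7 _ s] at h8
    rw [Finset.sum_const, Finset.card_univ, ZMod.card, nsmul_eq_mul] at h8
    rw [h7 x s]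
    exact (mul_eq_zero.1 h8).resolve_left hq0
  · exact h4 s

open Classical in
theorem diff_mulVec (X : SimpleGraph (VV q)) (hX : X = ⊥ ∨ X = cross q) (f : VV q → ℚ) :
    (((base q ⊔ X).adjMatrix ℚ - (polar q ⊔ X).adjMatrix ℚ) *ᵥ f) = delta q f := by
  have hent : ∀ u v, ((base q ⊔ X).adjMatrix ℚ - (polar q ⊔ X).adjMatrix ℚ) u v =
      match u, v with
      | .inl (x, s), .inl (y, t) => if s ≠ t ∧ x + y = s * t then -1 else 0
      | .inr s, .inr t => if s ≠ t then 1 else 0
      | _, _ => 0 := by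
    intro u v
    rw [Matrix.sub_apply, SimpleGraph.adjMatrix_apply, SimpleGraph.adjMatrix_apply]
    simp only [SimpleGraph.sup_adj]
    obtain ⟨x, s⟩ | s := u <;> obtain ⟨y, t⟩ | t := v <;> rcases hX with rfl | rfl <;>
      simp [base, polar, cross] <;> split_ifs <;> simp_all
  funext u
  rw [Matrix.mulVec, dotProduct, Fintype.sum_sum_type, Fintype.sum_prod_type]
  simp only [hent]
  obtain ⟨x, s⟩ | s := u
  · rw [delta_inl]
    simp only [zero_mul, Finset.sum_const_zero, add_zero]
    rw [Finset.sum_comm, ← Finset.sum_neg_distrib]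
    refine Finset.sum_congr rfl fun t _ => ?_
    by_cases h : s ≠ t
    · simp only [h, ne_eq, not_false_eq_true, if_true, true_and]
      rw [Finset.sum_eq_single (s * t - x)]
      · have : x + (s * t - x) = s * t := by ring
        simp [this]
      · intro y _ hy
        have : x + y ≠ s * t := fun h' => hy (by rw [← h']; ring)
        simp [this]
      · simp
    · simp [h]
  · rw [delta_inr]
    simp

end Pool.Agent.Helper62K9.SD
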